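import Pool.Agent.Helper33.DZ.Stmts

set_option autoImplicit false

open Complex Polynomial

namespace Pool.Agent.Helper33.DZ

theorem form_real (z : ℂ) (h : z.im = 0) : z = ((z.re : ℝ) : ℂ) := by
  apply Complex.ext
  · simp
  · simp [h]

/-- the value of the form -/
noncomputable def formV (g4 g6 : ℂ → ℂ) (a b d : ℕ) (P : ℝ[X]) (q : ℂ) : ℂ :=
  (g4 q ^ 3 - g6 q ^ 2) / 1728 *
    ∑ j ∈ Finset.range d, ((P.coeff j : ℝ) : ℂ) * (g4 q ^ (a - 3 * j) * g6 q ^ (b + 2 * j))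

theorem form_cusp (g4 g6 : ℂ → ℂ) (m a b d : ℕ) (P : ℝ[X]) (hm : 4 * a + 6 * b + 12 = 2 * m)
    (hd : 3 * d ≤ a + 3)
    (d4 : DifferentiableOn ℂ g4 (Metric.ball 0 1)) (d6 : DifferentiableOn ℂ g6 (Metric.ball 0 1))
    (z4 : g4 0 = 1) (z6 : g6 0 = 1)
    (i4 : ∀ z : ℂ, 0 < z.im → g4 (Complex.exp (2 * Real.pi * I * (-1 / z))) =
      z ^ 4 * g4 (Complex.exp (2 * Real.pi * I * z)))
    (i6 : ∀ z : ℂ, 0 < z.im → g6 (Complex.exp (2 * Real.pi * I * (-1 / z))) =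
      z ^ 6 * g6 (Complex.exp (2 * Real.pi * I * z)))
    (r4 : ∀ x : ℝ, 0 < x → x < 1 → (g4 (x : ℂ)).im = 0)
    (r6 : ∀ x : ℝ, 0 < x → x < 1 → (g6 (x : ℂ)).im = 0) :
    Cusp (2 * m) (formV g4 g6 a b d P) := by
  refine ⟨?_, ?_, ?_, ?_⟩
  · unfold formV
    fun_prop
  · unfold formV
    rw [z4, z6]
    simp
  · intro z hz
    unfold formV
    rw [i4 z hz, i6 z hz]
    generalize g4 (Complex.exp (2 * Real.pi * I * z)) = x
    generalize g6 (Complex.exp (2 * Real.pi * I * z)) = y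
    have e1 : ((z ^ 4 * x) ^ 3 - (z ^ 6 * y) ^ 2) / 1728 = z ^ 12 * ((x ^ 3 - y ^ 2) / 1728) := by
      ring
    have e2 : ∑ j ∈ Finset.range d, ((P.coeff j : ℝ) : ℂ) *
        ((z ^ 4 * x) ^ (a - 3 * j) * (z ^ 6 * y) ^ (b + 2 * j)) =
        z ^ (4 * a + 6 * b) * ∑ j ∈ Finset.range d, ((P.coeff j : ℝ) : ℂ) *
          (x ^ (a - 3 * j) * y ^ (b + 2 * j)) := by
      rw [Finset.mul_sum]
      apply Finset.sum_congr rfl
      intro j hj
      have hj2 : j < d := Finset.mem_range.1 hj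
      have e3 : z ^ (4 * a + 6 * b) = (z ^ 4) ^ (a - 3 * j) * (z ^ 6) ^ (b + 2 * j) := by
        rw [← pow_mul, ← pow_mul, ← pow_add]
        congr 1
        omega
      rw [mul_pow, mul_pow, e3]
      ring
    rw [e1, e2, ← hm, show 4 * a + 6 * b + 12 = 12 + (4 * a + 6 * b) by omega, pow_add]
    ring
  · intro x hx0 hx1
    unfold formV
    rw [form_real _ (r4 x hx0 hx1), form_real _ (r6 x hx0 hx1)]
    generalize (g4 (x : ℂ)).re = u
    generalize (g6 (x : ℂ)).re = v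
    have e : ((u : ℂ) ^ 3 - (v : ℂ) ^ 2) / 1728 *
        ∑ j ∈ Finset.range d, ((P.coeff j : ℝ) : ℂ) *
          ((u : ℂ) ^ (a - 3 * j) * (v : ℂ) ^ (b + 2 * j)) =
        (((u ^ 3 - v ^ 2) / 1728 * ∑ j ∈ Finset.range d, P.coeff j *
          (u ^ (a - 3 * j) * v ^ (b + 2 * j)) : ℝ) : ℂ) := by
      push_cast
      rfl
    rw [e]
    exact Complex.ofReal_im _

theorem st_FORM (h4 : ST_MF4) (h6 : ST_MF6) : ST_FORM := by
  unfold ST_FORM
  intro m a b d hm hd hd1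
  obtain ⟨g4, d4, z4, i4, r4, l4, s4⟩ := h4
  obtain ⟨g6, d6, z6, i6, r6, l6, s6, v6⟩ := h6
  obtain ⟨q, hq⟩ : ∃ q : ℝ → ℝ, ∀ t, q t = Real.exp (-(2 * Real.pi * t)) := ⟨_, fun _ => rfl⟩
  have hq0 : ∀ t, 0 < q t := fun t => by rw [hq]; exact Real.exp_pos _
  have hpi := Real.pi_pos
  have hq1 : ∀ t, 0 < t → q t < 1 := fun t ht => by
    rw [hq, Real.exp_lt_one_iff]
    have : 0 < 2 * Real.pi * t := by positivity
    linarith only [this]
  have hqm : ∀ s t, s < t → q t < q s := fun s t hst => by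
    rw [hq, hq, Real.exp_lt_exp]
    have : 2 * Real.pi * s < 2 * Real.pi * t := by
      apply mul_lt_mul_of_pos_left hst
      positivity
    linarith only [this]
  have hqc : Continuous q := by
    have : q = fun t => Real.exp (-(2 * Real.pi * t)) := funext hq
    rw [this]
    fun_prop
  have hball : ∀ t, 0 < t → ((q t : ℝ) : ℂ) ∈ Metric.ball (0 : ℂ) 1 := fun t ht => by
    rw [mem_ball_zero_iff, Complex.norm_real, Real.norm_eq_abs, abs_of_pos (hq0 t)]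
    exact hq1 t ht
  have c4 : ContinuousOn (fun t : ℝ => (g4 ((q t : ℝ) : ℂ)).re) (Set.Ioi 1) := by
    apply Complex.continuous_re.comp_continuousOn
    apply d4.continuousOn.comp (by fun_prop)
    intro t ht
    exact hball t (lt_trans one_pos ht)
  have c6 : ContinuousOn (fun t : ℝ => (g6 ((q t : ℝ) : ℂ)).re) (Set.Ioi 1) := by
    apply Complex.continuous_re.comp_continuousOn
    apply d6.continuousOn.comp (by fun_prop)
    intro t ht
    exact hball t (lt_trans one_pos ht)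
  have p4 : ∀ t, 1 < t → 1 < (g4 ((q t : ℝ) : ℂ)).re := fun t ht =>
    l4 _ (hq0 t) (hq1 t (lt_trans one_pos ht))
  have p6 : ∀ t, 1 < t → 0 < (g6 ((q t : ℝ) : ℂ)).re := fun t ht => by
    have h := s6 (q t) (q 1) (hq0 t) (hqm 1 t ht) (hq1 1 one_pos)
    rw [hq 1, mul_one, v6] at h
    exact h
  have p6' : ∀ t, 1 < t → (g6 ((q t : ℝ) : ℂ)).re < 1 := fun t ht =>
    l6 _ (hq0 t) (hq1 t (lt_trans one_pos ht))
  refine ⟨fun t => ((g4 ((q t : ℝ) : ℂ)).re ^ 3 - (g6 ((q t : ℝ) : ℂ)).re ^ 2) / 1728 *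
      ((g4 ((q t : ℝ) : ℂ)).re ^ a * (g6 ((q t : ℝ) : ℂ)).re ^ b),
    fun t => (g6 ((q t : ℝ) : ℂ)).re ^ 2 / (g4 ((q t : ℝ) : ℂ)).re ^ 3, ?_, ?_, ?_, ?_, ?_⟩
  · fun_prop
  · apply ContinuousOn.div (by fun_prop) (by fun_prop)
    intro t ht
    have := p4 t ht
    positivity
  · intro t ht
    have h1 := p4 t ht
    have h2 := p6 t ht
    have h3 := p6' t ht
    have h4 : 1 < (g4 ((q t : ℝ) : ℂ)).re ^ 3 := one_lt_pow₀ h1 (by norm_num)
    have h5 : (g6 ((q t : ℝ) : ℂ)).re ^ 2 < 1 := pow_lt_one₀ h2.le h3 (by norm_num)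
    have h6 : 0 < (g4 ((q t : ℝ) : ℂ)).re := lt_trans one_pos h1
    have h7 : 0 < (g4 ((q t : ℝ) : ℂ)).re ^ 3 - (g6 ((q t : ℝ) : ℂ)).re ^ 2 := by
      linarith only [h4, h5]
    positivity
  · intro s hs t ht hst
    have hs1 : 1 < s := hs
    have ht1 : 1 < t := ht
    have a1 := p4 s hs1
    have a2 := p4 t ht1
    have b1 := p6 s hs1
    have b2 := p6 t ht1
    have a3 := s4 (q t) (q s) (hq0 t) (hqm s t hst) (hq1 s (lt_trans one_pos hs1))
    have b3 := s6 (q t) (q s) (hq0 t) (hqm s t hst) (hq1 s (lt_trans one_pos hs1))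
    simp only
    have hA : 0 < (g4 ((q t : ℝ) : ℂ)).re := lt_trans one_pos a2
    have hB : 0 < (g4 ((q s : ℝ) : ℂ)).re := lt_trans one_pos a1
    rw [div_lt_div_iff₀ (by positivity) (by positivity)]
    have e1 : (g6 ((q s : ℝ) : ℂ)).re ^ 2 < (g6 ((q t : ℝ) : ℂ)).re ^ 2 :=
      pow_lt_pow_left₀ b3 b1.le (by norm_num)
    have e2 : (g4 ((q t : ℝ) : ℂ)).re ^ 3 < (g4 ((q s : ℝ) : ℂ)).re ^ 3 :=
      pow_lt_pow_left₀ a3 hA.le (by norm_num)
    exact mul_lt_mul'' e1 e2 (by positivity) (by positivity)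
  · intro P hP
    refine ⟨formV g4 g6 a b d P, form_cusp g4 g6 m a b d P hm hd d4 d6 z4 z6 i4 i6 r4 r6, ?_⟩
    intro t ht
    have ht0 : 0 < t := lt_trans one_pos ht
    unfold ph formV
    rw [← hq t, form_real _ (r4 (q t) (hq0 t) (hq1 t ht0)),
      form_real _ (r6 (q t) (hq0 t) (hq1 t ht0))]
    have h1 := p4 t ht
    simp only []
    generalize (g4 ((q t : ℝ) : ℂ)).re = u at *
    generalize (g6 ((q t : ℝ) : ℂ)).re = v at *
    have e : ((u : ℂ) ^ 3 - (v : ℂ) ^ 2) / 1728 *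
        ∑ j ∈ Finset.range d, ((P.coeff j : ℝ) : ℂ) *
          ((u : ℂ) ^ (a - 3 * j) * (v : ℂ) ^ (b + 2 * j)) =
        (((u ^ 3 - v ^ 2) / 1728 * ∑ j ∈ Finset.range d, P.coeff j *
          (u ^ (a - 3 * j) * v ^ (b + 2 * j)) : ℝ) : ℂ) := by
      push_cast
      rfl
    rw [e, Complex.ofReal_re, Polynomial.eval_eq_sum_range' hP, mul_assoc, Finset.mul_sum,
      Finset.mul_sum, Finset.mul_sum]
    have hu : u ≠ 0 := by linarith only [h1]
    apply Finset.sum_congr rfl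
    intro j hj
    have hj2 : j < d := Finset.mem_range.1 hj
    have e3 : u ^ a = u ^ (a - 3 * j) * (u ^ 3) ^ j := by
      rw [← pow_mul, ← pow_add]
      congr 1
      omega
    have e4 : (v ^ 2 / u ^ 3) ^ j * (u ^ 3) ^ j = (v ^ 2) ^ j := by
      rw [← mul_pow, div_mul_cancel₀ _ (pow_ne_zero 3 hu)]
    have e5 : v ^ (b + 2 * j) = v ^ b * (v ^ 2) ^ j := by
      rw [← pow_mul, ← pow_add]
    rw [e5, ← e4, e3]
    ring

end Pool.Agent.Helper33.DZ
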